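import Pool.Agent.Helper70.DY.Full
import Pool.Agent.Helper7.DY.Ex

/-!
# MP_d13a5e_al, Q1: linearity of the Rouquier complexes of Mikado braids

The full answer to Q1: statements (1), (2) and (3) hold for every Coxeter system `(W,S)` of finite
rank, every `w` and every biclosed set `A` of positive roots.
-/

open MvPolynomial

namespace Pool.Agent.Results.MP_d13a5e_al.FullMikado

open RC (BEq Rlz)
open RC.Rlz (Biclosed mik)
open RS

/-- Every Coxeter system `(W,S)` of finite rank has a realization, and for every realization `V`
there are bimodules `B_w`, `w ∈ W` (the indecomposable Soergel bimodules) such that for every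
biclosed set `A` of positive roots, every reduced word `l` of `w` and every word `u` of the Mikado
braid `w_A`: the Rouquier complex of `u` is homotopy equivalent to a minimal complex, and every
minimal complex homotopy equivalent to it satisfies (1), (2) and (3). -/
theorem result {B W : Type} [Finite B] [Group W] {M : CoxeterMatrix B} (cs : CoxeterSystem M W) :
    Nonempty (Rlz cs) ∧ ∀ V : Rlz cs,
      ∃ Bz : W → Raw V.n, (∀ w, IsB V w (Bz w)) ∧
        ∀ A, Biclosed V A → ∀ l, cs.IsReduced l → ∀ u, BEq M u (mik V A l) →
          (∃ X, IsCx X ∧ HE X (Rou V u) ∧ Minimal X) ∧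
          ∀ X, IsCx X → HE X (Rou V u) → Minimal X → Linear cs Bz (cs.wordProd l) X :=
  ⟨ExR.exists_rlz cs, fun V => DY.full_of_blk cs V fun Ψ => DY.blkII Ψ (DY.Bf V)⟩

end Pool.Agent.Results.MP_d13a5e_al.FullMikado
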